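import Mathlib

set_option autoImplicit false

universe u v

namespace Pool.Agent.Results.MP_2e666d_lc.TreewidthTwo

open Function

/-- `β → (β, 3)²` for the order type `β`: every triangle-free graph on `β` is independent on the
range of some order embedding of `β` into itself. -/
def ArrowThree (β : Type u) [LinearOrder β] : Prop :=
  ∀ G : SimpleGraph β, G.CliqueFree 3 → ∃ f : β ↪o β, ∀ x y, ¬ G.Adj (f x) (f y)

/-- `G` contains a (not necessarily induced) copy of `H`. -/
def ContainsCopy {β : Type u} {V : Type v} (G : SimpleGraph β) (H : SimpleGraph V) : Prop :=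
  ∃ g : V → β, Injective g ∧ ∀ a b, H.Adj a b → G.Adj (g a) (g b)

/-- `H` has treewidth at most two: `H` is a spanning subgraph of a graph `T` without 4-cliques
which is chordal, the function `r` listing its vertices in a construction order, that is, any two
distinct neighbours of a vertex `v` which come before `v` are adjacent. -/
def TreewidthLETwo {V : Type v} (H : SimpleGraph V) : Prop :=
  ∃ (T : SimpleGraph V) (r : V → ℕ), Injective r ∧ H ≤ T ∧ T.CliqueFree 4 ∧
    ∀ v a b, T.Adj v a → T.Adj v b → r a < r v → r b < r v → a ≠ b → T.Adj a b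

section graph

variable {β : Type u}

/-- the third vertices of the triangles of the edge set `F` through the edge `e` -/
def third (F : Finset (Sym2 β)) (e : Sym2 β) : Set β := {w | ∀ v ∈ e, s(v, w) ∈ F}

theorem third_finite (F : Finset (Sym2 β)) (e : Sym2 β) : (third F e).Finite := by
  classical
  induction e with
  | h a b =>
    have hfin : (((F : Set (Sym2 β))) : Set (Sym2 β)).Finite := F.finite_toSet
    have h2 : (⋃ e' ∈ (F : Set (Sym2 β)), {w : β | w ∈ e'}).Finite := by
      refine Set.Finite.biUnion hfin ?_
      intro e' _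
      induction e' with
      | h c d =>
        refine Set.Finite.subset (Set.toFinite ({c, d} : Set β)) ?_
        intro w hw
        simpa using hw
    refine h2.subset ?_
    intro w hw
    have := hw a (by simp)
    simp only [Set.mem_iUnion]
    exact ⟨s(a, w), by exact_mod_cast this, by simp⟩

/-- greedy colouring -/
theorem greedy (d : ℕ) : ∀ (n : ℕ) (F : Finset (Sym2 β)), F.card = n →
    (∀ e ∈ F, ¬ e.IsDiag) →
    (∀ F' : Finset (Sym2 β), F' ⊆ F → F'.Nonempty → ∃ e ∈ F', (third F' e).ncard ≤ d) →
    ∃ c : Sym2 β → Fin (d + 1), ∀ a b w : β, s(a, b) ∈ F → s(a, w) ∈ F → s(b, w) ∈ F →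
      ¬ (c s(a, b) = c s(a, w) ∧ c s(a, w) = c s(b, w)) := by
  classical
  intro n
  induction n with
  | zero =>
    intro F hF _ _
    have : F = ∅ := Finset.card_eq_zero.mp hF
    subst this
    exact ⟨fun _ => 0, by intro a b w h; simp at h⟩
  | succ n ih =>
    intro F hF hloop hdeg
    have hne : F.Nonempty := by
      rw [← Finset.card_pos]; omega
    obtain ⟨e, heF, hed⟩ := hdeg F (Finset.Subset.refl F) hne
    obtain ⟨c, hc⟩ := ih (F.erase e) (by rw [Finset.card_erase_of_mem heF]; omega)
      (fun e' he' => hloop e' (Finset.mem_of_mem_erase he'))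
      (fun F' hF' hne' => hdeg F' (hF'.trans (Finset.erase_subset _ _)) hne')
    induction e with
    | h a b =>
      have hab : a ≠ b := by
        intro h; exact hloop _ heF (by simp [h])
      -- forbidden colours
      let bad : Set (Fin (d + 1)) := (fun w => c s(a, w)) '' (third F s(a, b))
      have hbad : bad.ncard ≤ d := (Set.ncard_image_le (third_finite F _)).trans hed
      obtain ⟨k, hk⟩ : ∃ k : Fin (d + 1), k ∉ bad := by
        by_contra hcon
        push Not at hcon
        have : bad = Set.univ := Set.eq_univ_of_forall hcon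
        rw [this, Set.ncard_univ, Nat.card_eq_fintype_card, Fintype.card_fin] at hbad
        omega
      -- key : a triangle through e
      have key : ∀ w, s(a, w) ∈ F → s(b, w) ∈ F →
          update c s(a, b) k s(a, b) ≠ update c s(a, b) k s(a, w) := by
        intro w h1 h2 heq
        have hwb : w ≠ b := by
          intro h; exact hloop _ h2 (by simp [h])
        have hne1 : s(a, w) ≠ s(a, b) := by
          intro h
          rw [Sym2.eq_iff] at h
          rcases h with ⟨_, h⟩ | ⟨h, _⟩
          · exact hwb h
          · exact hab h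
        rw [update_self, update_of_ne hne1] at heq
        apply hk
        refine ⟨w, ?_, heq.symm⟩
        intro v hv
        rw [Sym2.mem_iff] at hv
        rcases hv with rfl | rfl
        · exact h1
        · exact h2
      have key' : ∀ a' b' w, s(a', b') = s(a, b) → s(a', w) ∈ F → s(b', w) ∈ F →
          ¬ (update c s(a, b) k s(a', b') = update c s(a, b) k s(a', w) ∧
             update c s(a, b) k s(a', w) = update c s(a, b) k s(b', w)) := by
        intro a' b' w heq h1 h2 hcon
        rw [Sym2.eq_iff] at heq
        rcases heq with ⟨ha, hb⟩ | ⟨ha, hb⟩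
        · rw [ha, hb] at hcon
          rw [ha] at h1
          rw [hb] at h2
          exact key w h1 h2 hcon.1
        · rw [ha, hb, Sym2.eq_swap (a := b) (b := a)] at hcon
          rw [ha] at h1
          rw [hb] at h2
          exact key w h2 h1 (hcon.1.trans hcon.2)
      refine ⟨update c s(a, b) k, ?_⟩
      intro a' b' w h1 h2 h3 hcon
      by_cases e1 : s(a', b') = s(a, b)
      · exact key' a' b' w e1 h2 h3 hcon
      by_cases e2 : s(a', w) = s(a, b)
      · refine key' a' w b' e2 h1 (by rw [Sym2.eq_swap]; exact h3) ⟨hcon.1.symm, ?_⟩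
        rw [Sym2.eq_swap (a := w) (b := b')]
        exact hcon.1.trans hcon.2
      by_cases e3 : s(b', w) = s(a, b)
      · refine key' b' w a' e3 (by rw [Sym2.eq_swap]; exact h1) (by rw [Sym2.eq_swap]; exact h2)
          ⟨?_, ?_⟩
        · rw [Sym2.eq_swap (a := b') (b := a')]
          exact (hcon.1.trans hcon.2).symm
        · rw [Sym2.eq_swap (a := b') (b := a'), Sym2.eq_swap (a := w) (b := a')]
          exact hcon.1
      rw [update_of_ne e1, update_of_ne e2, update_of_ne e3] at hcon
      exact hc a' b' w (Finset.mem_erase.mpr ⟨e1, h1⟩) (Finset.mem_erase.mpr ⟨e2, h2⟩)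
        (Finset.mem_erase.mpr ⟨e3, h3⟩) hcon

/-- greedy embedding -/
theorem embed {V : Type v} [Fintype V] (F : Finset (Sym2 β)) (hne : F.Nonempty) (hdeg : ∀ e ∈ F, Fintype.card V < (third F e).ncard)
    (T : SimpleGraph V) (r : V → ℕ) (hr : Injective r) (hT4 : T.CliqueFree 4)
    (hT : ∀ v a b, T.Adj v a → T.Adj v b → r a < r v → r b < r v → a ≠ b → T.Adj a b) :
    ∃ g : V → β, Injective g ∧ ∀ a b, T.Adj a b → s(g a, g b) ∈ F := by
  classical
  have main : ∀ S : Finset V, ∃ g : V → β, Set.InjOn g S ∧
      (∀ a ∈ S, ∀ b ∈ S, T.Adj a b → s(g a, g b) ∈ F) ∧ ∀ a ∈ S, ∃ y, s(g a, y) ∈ F := by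
    intro S
    refine Finset.induction_on_max_value r S ?_ ?_
    · obtain ⟨e, he⟩ := hne
      induction e with
      | h a b => exact ⟨fun _ => a, by simp, by simp, by simp⟩
    · intro v S hvS hmax ⟨g, hinj, hadj, hvert⟩
      -- the earlier neighbours of `v`
      have hlt : ∀ x ∈ S, r x < r v := by
        intro x hx
        refine lt_of_le_of_ne (hmax x hx) ?_
        intro h
        exact hvS (hr h ▸ hx)
      have hclique : ∀ x ∈ S, ∀ y ∈ S, T.Adj v x → T.Adj v y → x ≠ y → T.Adj x y :=
        fun x hx y hy h1 h2 h3 => hT v x y h1 h2 (hlt x hx) (hlt y hy) h3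
      -- all earlier neighbours are mapped to the ends of one edge
      obtain ⟨a, b, habF, hab⟩ : ∃ a b, s(a, b) ∈ F ∧ ∀ x ∈ S, T.Adj v x → g x = a ∨ g x = b := by
        by_cases h0 : ∃ x ∈ S, T.Adj v x
        · obtain ⟨x, hxS, hvx⟩ := h0
          by_cases h1 : ∃ y ∈ S, T.Adj v y ∧ y ≠ x
          · obtain ⟨y, hyS, hvy, hyx⟩ := h1
            have hxy : T.Adj x y := hclique x hxS y hyS hvx hvy (Ne.symm hyx)
            refine ⟨g x, g y, hadj x hxS y hyS hxy, ?_⟩
            intro z hzS hvz
            by_cases hzx : z = x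
            · left; rw [hzx]
            by_cases hzy : z = y
            · right; rw [hzy]
            exfalso
            have hxz : T.Adj x z := hclique x hxS z hzS hvx hvz (Ne.symm hzx)
            have hyz : T.Adj y z := hclique y hyS z hzS hvy hvz (Ne.symm hzy)
            refine hT4 {v, x, y, z} ?_
            rw [SimpleGraph.isNClique_iff, SimpleGraph.isClique_iff]
            refine ⟨?_, ?_⟩
            · intro p hp q hq hpq
              simp only [Finset.coe_insert, Finset.coe_singleton, Set.mem_insert_iff,
                Set.mem_singleton_iff] at hp hq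
              rcases hp with rfl | rfl | rfl | rfl <;> rcases hq with rfl | rfl | rfl | rfl <;>
                first
                  | exact absurd rfl hpq
                  | assumption
                  | (apply SimpleGraph.Adj.symm; assumption)
            · rw [Finset.card_insert_of_notMem, Finset.card_insert_of_notMem,
                Finset.card_insert_of_notMem, Finset.card_singleton]
              · simpa using hyz.ne
              · simp only [Finset.mem_insert, Finset.mem_singleton, not_or]
                exact ⟨hxy.ne, hxz.ne⟩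
              · simp only [Finset.mem_insert, Finset.mem_singleton, not_or]
                exact ⟨hvx.ne, hvy.ne, hvz.ne⟩
          · push Not at h1
            obtain ⟨y, hy⟩ := hvert x hxS
            refine ⟨g x, y, hy, ?_⟩
            intro z hzS hvz
            left; rw [h1 z hzS hvz]
        · push Not at h0
          obtain ⟨e, he⟩ := hne
          induction e with
          | h a b => exact ⟨a, b, he, fun x hx h => absurd h (h0 x hx)⟩
      -- choose a new vertex
      obtain ⟨w, hw, hwS⟩ : ∃ w ∈ third F s(a, b), w ∉ S.image g := by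
        by_contra hcon
        push Not at hcon
        have h1 : (third F s(a, b)).ncard ≤ (S.image g).card := by
          rw [← Set.ncard_coe_finset]
          exact Set.ncard_le_ncard (fun w hw => by exact_mod_cast hcon w hw)
            (Finset.finite_toSet _)
        have h2 : (S.image g).card ≤ Fintype.card V :=
          Finset.card_image_le.trans (Finset.card_le_univ S)
        have := hdeg _ habF
        omega
      have hwa : s(a, w) ∈ F := hw a (by simp)
      have hwb : s(b, w) ∈ F := hw b (by simp)
      have hupd : ∀ x ∈ S, update g v w x = g x := by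
        intro x hx
        exact update_of_ne (fun h => hvS (by rw [← h]; exact hx)) _ _
      refine ⟨update g v w, ?_, ?_, ?_⟩
      · intro x hx y hy hxy
        rw [Finset.coe_insert] at hx hy
        rcases hx with rfl | hx <;> rcases hy with rfl | hy
        · rfl
        · exfalso
          rw [update_self, hupd y hy] at hxy
          exact hwS (Finset.mem_image.mpr ⟨y, hy, hxy.symm⟩)
        · exfalso
          rw [update_self, hupd x hx] at hxy
          exact hwS (Finset.mem_image.mpr ⟨x, hx, hxy⟩)
        · rw [hupd x hx, hupd y hy] at hxy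
          exact hinj hx hy hxy
      · intro x hx y hy hxy
        rw [Finset.mem_insert] at hx hy
        rcases hx with rfl | hx <;> rcases hy with rfl | hy
        · exact absurd rfl hxy.ne
        · rw [update_self, hupd y hy, Sym2.eq_swap]
          rcases hab y hy hxy with h | h
          · rw [h]; exact hwa
          · rw [h]; exact hwb
        · rw [update_self, hupd x hx]
          rcases hab x hx hxy.symm with h | h
          · rw [h]; exact hwa
          · rw [h]; exact hwb
        · rw [hupd x hx, hupd y hy]
          exact hadj x hx y hy hxy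
      · intro x hx
        rw [Finset.mem_insert] at hx
        rcases hx with rfl | hx
        · exact ⟨a, by rw [update_self, Sym2.eq_swap]; exact hwa⟩
        · rw [hupd x hx]; exact hvert x hx
  obtain ⟨g, h1, h2, _⟩ := main Finset.univ
  refine ⟨g, ?_, fun a b h => h2 a (Finset.mem_univ _) b (Finset.mem_univ _) h⟩
  intro x y hxy
  exact h1 (by simp) (by simp) hxy

/-- A graph without a copy of a graph of treewidth at most two is a union of finitely many
triangle-free graphs. -/
theorem union_of_copyFree {V : Type v} [Fintype V] (H : SimpleGraph V) (hH : TreewidthLETwo H)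
    (G : SimpleGraph β) (hG : ¬ ContainsCopy G H) :
    ∃ c : Sym2 β → Fin (Fintype.card V + 1), ∀ a b w : β, G.Adj a b → G.Adj a w → G.Adj b w →
      ¬ (c s(a, b) = c s(a, w) ∧ c s(a, w) = c s(b, w)) := by
  classical
  obtain ⟨T, r, hr, hHT, hT4, hT⟩ := hH
  -- every finite set of edges has an edge in few triangles
  have hfew : ∀ F : Finset (Sym2 β), (∀ e ∈ F, e ∈ G.edgeSet) → F.Nonempty →
      ∃ e ∈ F, (third F e).ncard ≤ Fintype.card V := by
    intro F hF hne
    by_contra hcon
    push Not at hcon
    obtain ⟨g, hg1, hg2⟩ := embed F hne hcon T r hr hT4 hT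
    refine hG ⟨g, hg1, ?_⟩
    intro a b hab
    have := hF _ (hg2 a b (hHT hab))
    simpa using this
  -- colour finite sets of edges
  have hcol : ∀ F : Finset (Sym2 β), ∃ c : Sym2 β → Fin (Fintype.card V + 1), ∀ a b w : β,
      G.Adj a b → G.Adj a w → G.Adj b w → s(a, b) ∈ F → s(a, w) ∈ F → s(b, w) ∈ F →
      ¬ (c s(a, b) = c s(a, w) ∧ c s(a, w) = c s(b, w)) := by
    intro F
    obtain ⟨c, hc⟩ := greedy (Fintype.card V) _ (F.filter (fun e => e ∈ G.edgeSet)) rfl
      (fun e he => G.not_isDiag_of_mem_edgeSet (Finset.mem_filter.mp he).2)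
      (fun F' hF' hne => hfew F' (fun e he => (Finset.mem_filter.mp (hF' he)).2) hne)
    refine ⟨c, fun a b w h1 h2 h3 m1 m2 m3 => hc a b w ?_ ?_ ?_⟩
    · exact Finset.mem_filter.mpr ⟨m1, h1⟩
    · exact Finset.mem_filter.mpr ⟨m2, h2⟩
    · exact Finset.mem_filter.mpr ⟨m3, h3⟩
  choose c hc using hcol
  -- compactness
  let U : Ultrafilter (Finset (Sym2 β)) := Ultrafilter.of Filter.atTop
  have hU : ∀ e : Sym2 β, {F : Finset (Sym2 β) | e ∈ F} ∈ (U : Filter _) := by
    intro e
    have h1 : {F : Finset (Sym2 β) | e ∈ F} ∈ (Filter.atTop : Filter (Finset (Sym2 β))) := by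
      refine Filter.mem_of_superset (Filter.Ici_mem_atTop ({e} : Finset (Sym2 β))) ?_
      intro F hF
      exact Finset.singleton_subset_iff.mp hF
    exact Ultrafilter.of_le _ h1
  have hlim : ∀ e : Sym2 β, ∃ k : Fin (Fintype.card V + 1), {F | c F e = k} ∈ (U : Filter _) := by
    intro e
    obtain ⟨k, hk⟩ := Ultrafilter.eq_pure_of_finite (U.map (fun F => c F e))
    refine ⟨k, ?_⟩
    have : ({k} : Set (Fin (Fintype.card V + 1))) ∈ U.map (fun F => c F e) := by
      rw [hk]; exact Set.mem_singleton k
    exact this
  choose k hk using hlim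
  refine ⟨k, ?_⟩
  intro a b w h1 h2 h3 ⟨e1, e2⟩
  have hmem := Filter.inter_mem (Filter.inter_mem (hU s(a, b)) (hU s(a, w)))
    (Filter.inter_mem (hU s(b, w)) (Filter.inter_mem (hk s(a, b))
      (Filter.inter_mem (hk s(a, w)) (hk s(b, w)))))
  obtain ⟨F, ⟨m1, m2⟩, m3, c1, c2, c3⟩ := U.nonempty_of_mem hmem
  refine hc F a b w h1 h2 h3 m1 m2 m3 ⟨?_, ?_⟩
  · exact (c1.trans e1).trans c2.symm
  · exact (c2.trans e2).trans c3.symm

end graph

section arrow

variable {β : Type u} [LinearOrder β]

/-- `β → (β, 3)²` handles finite unions of triangle-free graphs. -/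
theorem arrow_union (h3 : ArrowThree β) : ∀ (n : ℕ) (G : Fin n → SimpleGraph β),
    (∀ i, (G i).CliqueFree 3) → ∃ f : β ↪o β, ∀ i x y, ¬ (G i).Adj (f x) (f y) := by
  intro n
  induction n with
  | zero =>
    intro G _
    exact ⟨RelEmbedding.refl _, fun i => i.elim0⟩
  | succ n ih =>
    intro G hG
    obtain ⟨f, hf⟩ := ih (fun i => G i.castSucc) (fun i => hG _)
    obtain ⟨g, hg⟩ := h3 ((G (Fin.last n)).comap f) (by
      intro S hS
      rw [SimpleGraph.is3Clique_iff] at hS
      obtain ⟨a, b, w, h1, h2, h3, _⟩ := hS
      refine hG (Fin.last n) {f a, f b, f w} ?_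
      rw [SimpleGraph.is3Clique_iff]
      exact ⟨f a, f b, f w, h1, h2, h3, rfl⟩)
    refine ⟨g.trans f, ?_⟩
    intro i x y
    refine Fin.lastCases ?_ (fun i => ?_) i
    · exact hg x y
    · exact hf i (g x) (g y)

/-- the same for arbitrary finite index types -/
theorem arrow_union' (h3 : ArrowThree β) (ι : Type*) [Finite ι] (G : ι → SimpleGraph β)
    (hG : ∀ i, (G i).CliqueFree 3) : ∃ f : β ↪o β, ∀ i x y, ¬ (G i).Adj (f x) (f y) := by
  obtain ⟨n, ⟨e⟩⟩ := Finite.exists_equiv_fin ι
  obtain ⟨f, hf⟩ := arrow_union h3 n (fun i => G (e.symm i)) (fun i => hG _)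
  refine ⟨f, fun i x y => ?_⟩
  have := hf (e i) x y
  simpa using this

end arrow

/-- If the well-ordered type `β` satisfies `β → (β, 3)²`, then for all finite graphs
`H 0, …, H (n-1)` of treewidth at most two it satisfies `β → (β, H 0, …, H (n-1))²`: given graphs
`G 0, …, G (n-1)` on `β` such that `G i` contains no copy of `H i`, some suborder of `β` of type `β`
is independent in all of them. -/
theorem result (β : Type u) [LinearOrder β] [WellFoundedLT β] (h3 : ArrowThree β)
    (n : ℕ) (V : Fin n → Type v) [∀ i, Finite (V i)] (H : ∀ i, SimpleGraph (V i))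
    (hH : ∀ i, TreewidthLETwo (H i)) (G : Fin n → SimpleGraph β)
    (hG : ∀ i, ¬ ContainsCopy (G i) (H i)) :
    ∃ f : β ↪o β, ∀ i x y, ¬ (G i).Adj (f x) (f y) := by
  classical
  have : ∀ i, Fintype (V i) := fun i => Fintype.ofFinite (V i)
  choose c hc using fun i => union_of_copyFree (H i) (hH i) (G i) (hG i)
  let G' : (Σ i : Fin n, Fin (Fintype.card (V i) + 1)) → SimpleGraph β := fun p =>
    { Adj := fun x y => (G p.1).Adj x y ∧ c p.1 s(x, y) = p.2
      symm := ⟨fun x y h => ⟨h.1.symm, by rw [Sym2.eq_swap]; exact h.2⟩⟩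
      loopless := ⟨fun x h => (G p.1).loopless.irrefl x h.1⟩ }
  obtain ⟨f, hf⟩ := arrow_union' h3 _ G' (by
    intro p S hS
    rw [SimpleGraph.is3Clique_iff] at hS
    obtain ⟨a, b, w, h1, h2, h3, _⟩ := hS
    exact hc p.1 a b w h1.1 h2.1 h3.1 ⟨h1.2.trans h2.2.symm, h2.2.trans h3.2.symm⟩)
  refine ⟨f, fun i x y hxy => ?_⟩
  exact hf ⟨i, c i s(f x, f y)⟩ x y ⟨hxy, rfl⟩

end Pool.Agent.Results.MP_2e666d_lc.TreewidthTwo
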